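import Mathlib

namespace Pool.Agent.Results.MP_d4d41d_nt.Positive

open PowerSeries
open scoped PowerSeries.WithPiTopology

/-- `(q;q)_∞` as a formal power series over `ℤ`. -/
noncomputable def qPoch : ℤ⟦X⟧ := ∏' k : ℕ, (1 - X ^ (k + 1))

/-- The false theta function `Ψ(a,b)`; the second sum is over `n = -(m+1)`, `m ≥ 0`, where
`binom(n+1,2) = binom(m+1,2)` and `binom(n,2) = binom(m+2,2)`. -/
noncomputable def falseTheta (a b : ℤ⟦X⟧) : ℤ⟦X⟧ :=
  (∑' n : ℕ, a ^ (n + 1).choose 2 * b ^ n.choose 2) -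
    ∑' m : ℕ, a ^ (m + 1).choose 2 * b ^ (m + 2).choose 2

/-- `Ψ(-q^2, q)`. -/
noncomputable def Psi : ℤ⟦X⟧ := falseTheta (-X ^ 2) X

/-- `1 / Ψ(-q^2, q)`. -/
noncomputable def PsiInv : ℤ⟦X⟧ := invOfUnit Psi 1

def B (k : ℕ) : ℕ := 2 * (k + 1).choose 2 + k.choose 2

def A (k : ℕ) : ℕ := 2 * (k + 1).choose 2 + (k + 2).choose 2

def s (k : ℕ) : ℤ := (-1) ^ (k + 1).choose 2

lemma ch (k : ℕ) : (k + 1).choose 2 = k.choose 2 + k := by
  rw [Nat.choose_succ_succ' k 1, Nat.choose_one_right, add_comm]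

lemma AB (k : ℕ) : A k = B k + 2 * k + 1 := by
  unfold A B
  rw [ch (k + 1), ch k]
  ring

lemma BA (k : ℕ) : B (k + 1) = A k + k + 1 := by
  unfold A B
  rw [ch (k + 1), ch k]
  ring

lemma B_ge (k : ℕ) : k ≤ B k := by
  induction k with
  | zero => simp
  | succ k ih => rw [BA, AB]; omega

lemma B_two (k : ℕ) : 2 * (B k : ℤ) = k * (3 * k + 1) := by
  induction k with
  | zero => simp [B]
  | succ k ih =>
    rw [BA, AB]
    push_cast
    linarith

lemma pentB (k : ℕ) : pentagonal (-(k : ℤ)) = B k := by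
  have h1 := two_mul_natCast_pentagonal_neg (k : ℤ)
  have h2 := B_two k
  omega

lemma pentA (k : ℕ) : pentagonal ((k : ℤ) + 1) = A k := by
  have h1 := two_mul_natCast_pentagonal ((k : ℤ) + 1)
  have h2 := B_two k
  have h3 := AB k
  have : ((k : ℤ) + 1) * (3 * (k + 1) - 1) = k * (3 * k + 1) + 4 * k + 2 := by ring
  omega

lemma s_succ (k : ℕ) : s (k + 1) = s k * (-1) ^ (k + 1) := by
  unfold s
  rw [ch (k + 1), pow_add]

lemma s_four (j : ℕ) : s (4 * j) = 1 := by
  induction j with
  | zero => simp [s]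
  | succ j ih =>
    rw [show 4 * (j + 1) = 4 * j + 1 + 1 + 1 + 1 by ring, s_succ, s_succ, s_succ, s_succ, ih]
    have : (-1 : ℤ) ^ (4 * j) = 1 := by rw [pow_mul]; simp
    simp [pow_succ, this]

lemma s_vals (j : ℕ) : s (4 * j) = 1 ∧ s (4 * j + 1) = -1 ∧ s (4 * j + 2) = -1 ∧
    s (4 * j + 3) = 1 := by
  have h : (-1 : ℤ) ^ (4 * j) = 1 := by rw [pow_mul]; simp
  have h0 := s_four j
  have h1 : s (4 * j + 1) = -1 := by rw [s_succ, h0]; simp [pow_succ, h]
  have h2 : s (4 * j + 2) = -1 := by rw [s_succ, h1]; simp [pow_succ, h]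
  have h3 : s (4 * j + 3) = 1 := by rw [s_succ, h2]; simp [pow_succ, h]
  exact ⟨h0, h1, h2, h3⟩

lemma coeff_hasSum (g : ℕ → ℤ⟦X⟧) (S : ℤ⟦X⟧) (hS : HasSum g S)
    (h : ∀ n N, N < n → coeff N (g n) = 0) (N M : ℕ) (hM : N < M) :
    coeff N S = ∑ n ∈ Finset.range M, coeff N (g n) := by
  have h1 := (PowerSeries.WithPiTopology.hasSum_iff_hasSum_coeff ℤ).mp hS N
  refine h1.unique (hasSum_sum_of_ne_finset_zero ?_)
  intro n hn
  exact h n N (by simp at hn; omega)

lemma summable_of (g : ℕ → ℤ⟦X⟧) (h : ∀ n N, N < n → coeff N (g n) = 0) : Summable g := by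
  rw [PowerSeries.WithPiTopology.summable_iff_summable_coeff]
  intro N
  refine summable_of_ne_finset_zero (s := Finset.range (N + 1)) ?_
  intro n hn
  exact h n N (by simp at hn; omega)

lemma term_eq (k e : ℕ) : (-X ^ 2 : ℤ⟦X⟧) ^ (k + 1).choose 2 * X ^ e =
    C (s k) * X ^ (2 * (k + 1).choose 2 + e) := by
  unfold s
  rw [neg_pow, ← pow_mul, pow_add, map_pow, map_neg, map_one, mul_assoc]

lemma coeff_term (c : ℤ) (e N : ℕ) (h : N < e) : coeff N (C c * X ^ e : ℤ⟦X⟧) = 0 := by
  rw [coeff_C_mul, coeff_X_pow, if_neg (by omega), mul_zero]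

lemma coeff_Psi (N M : ℕ) (hM : N < M) : coeff N Psi =
    coeff N (∑ k ∈ Finset.range M, C (s k) * (X ^ B k - X ^ A k) : ℤ⟦X⟧) := by
  unfold Psi falseTheta
  simp only [term_eq]
  have h1 : ∀ n N, N < n →
      coeff N (C (s n) * X ^ (2 * (n + 1).choose 2 + n.choose 2) : ℤ⟦X⟧) = 0 := by
    intro n N h
    exact coeff_term _ _ _ (lt_of_lt_of_le h (B_ge n))
  have h2 : ∀ n N, N < n →
      coeff N (C (s n) * X ^ (2 * (n + 1).choose 2 + (n + 2).choose 2) : ℤ⟦X⟧) = 0 := by
    intro n N h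
    have e1 := B_ge n
    have e2 := AB n
    exact coeff_term _ (A n) _ (by omega)
  rw [map_sub, coeff_hasSum _ _ (summable_of _ h1).hasSum h1 N M hM,
    coeff_hasSum _ _ (summable_of _ h2).hasSum h2 N M hM, map_sum, ← Finset.sum_sub_distrib]
  refine Finset.sum_congr rfl fun k _ => ?_
  rw [mul_sub, map_sub]
  rfl

lemma coeff_qPoch (N M : ℕ) (hM : N < M) : coeff N qPoch =
    coeff N (∑ k ∈ Finset.range M, C ((-1) ^ k) * (X ^ B k - X ^ A k) : ℤ⟦X⟧) := by
  unfold qPoch
  rw [PowerSeries.WithPiTopology.tprod_one_sub_X_pow ℤ]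
  have h := PowerSeries.WithPiTopology.hasSum_pow_pentagonal_sub_pentagonalSeries ℤ
  simp only [pentA, pentB] at h
  have e : ∀ k : ℕ, ((-1) ^ k : ℤ⟦X⟧) = C ((-1) ^ k) := by
    intro k
    rw [map_pow, map_neg, map_one]
  simp only [e] at h
  rw [coeff_hasSum _ _ h ?_ N M hM, map_sum]
  intro n N hn
  have e1 := B_ge n
  have e2 := AB n
  rw [mul_sub, map_sub, coeff_term _ _ _ (by omega), coeff_term _ _ _ (by omega), sub_zero]

lemma Psi_mul : Psi * PsiInv = 1 := by
  apply mul_invOfUnit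
  rw [← coeff_zero_eq_constantCoeff_apply, coeff_Psi 0 1 (by norm_num)]
  simp [s, A, B]

noncomputable def f (x : ℤ) : ℤ := if 0 ≤ x then coeff x.toNat PsiInv else 0

lemma f_neg (x : ℤ) (h : x < 0) : f x = 0 := by
  unfold f
  rw [if_neg (by omega)]

lemma f_zero : f 0 = 1 := by
  unfold f PsiInv
  simp [constantCoeff_invOfUnit]

lemma coeff_shift (N d : ℕ) : coeff N (X ^ d * PsiInv) = f ((N : ℤ) - d) := by
  rw [coeff_X_pow_mul']
  unfold f
  split_ifs with h1 h2 h2
  · congr 2
    omega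
  · omega
  · omega
  · rfl

lemma conv (S : ℤ⟦X⟧) (σ : ℕ → ℤ)
    (h : ∀ N M, N < M → coeff N S =
      coeff N (∑ k ∈ Finset.range M, C (σ k) * (X ^ B k - X ^ A k) : ℤ⟦X⟧))
    (N M : ℕ) (hM : N < M) : coeff N (S * PsiInv) =
      ∑ k ∈ Finset.range M, σ k * (f ((N : ℤ) - B k) - f ((N : ℤ) - A k)) := by
  have e : coeff N (S * PsiInv) = coeff N
      ((∑ k ∈ Finset.range M, C (σ k) * (X ^ B k - X ^ A k) : ℤ⟦X⟧) * PsiInv) := by
    rw [coeff_mul, coeff_mul]
    refine Finset.sum_congr rfl fun p hp => ?_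
    have := Finset.HasAntidiagonal.mem_antidiagonal.mp hp
    rw [h p.1 M (by omega)]
  rw [e, Finset.sum_mul, map_sum]
  refine Finset.sum_congr rfl fun k _ => ?_
  rw [mul_assoc, coeff_C_mul, sub_mul, map_sub, coeff_shift, coeff_shift]

lemma mono_of (N : ℤ) (h : ∀ x, x < N → 0 ≤ f x ∧ f (x - 1) + f (x - 3) ≤ f x) (x : ℤ) :
    ∀ y, x ≤ y → y < N → f x ≤ f y := by
  intro y hy
  induction y, hy using Int.le_induction with
  | base => intro _; exact le_rfl
  | succ y hy ih =>
    intro hN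
    have h1 := ih (by omega)
    have h2 := (h (y + 1) hN).2
    have h3 := (h (y + 1 - 3) (by omega)).1
    rw [show y + 1 - 1 = y by ring] at h2
    linarith

lemma growth (N : ℕ) : ∀ x : ℤ, x < N → 0 ≤ f x ∧ f (x - 1) + f (x - 3) ≤ f x := by
  induction N with
  | zero =>
    intro x hx
    rw [f_neg x (by omega), f_neg (x - 1) (by omega), f_neg (x - 3) (by omega)]
    simp
  | succ N ih =>
    intro x hx
    by_cases hx' : x < N
    · exact ih x hx'
    have hxN : x = N := by omega
    subst hxN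
    rcases Nat.eq_zero_or_pos N with rfl | hN
    · rw [f_neg (((0 : ℕ) : ℤ) - 1) (by omega), f_neg (((0 : ℕ) : ℤ) - 3) (by omega)]
      simp [f_zero]
    have mono := mono_of N ih
    have key : ∀ J : ℕ, ∑ k ∈ Finset.range (4 * J + 4),
        s k * (f ((N : ℤ) - B k) - f ((N : ℤ) - A k)) + f ((N : ℤ) - B (4 * J + 4)) ≤
        f N - f (N - 1) - f (N - 3) := by
      intro J
      induction J with
      | zero =>
        obtain ⟨s0, s1, s2, s3⟩ := s_vals 0
        simp only [Finset.sum_range_succ, Finset.sum_range_zero, mul_zero, zero_add] at *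
        rw [s0, s1, s2, s3]
        have b0 : B 0 = 0 := by decide
        have b1 : B 1 = 2 := by decide
        have b2 : B 2 = 7 := by decide
        have b3 : B 3 = 15 := by decide
        have b4 : B 4 = 26 := by decide
        have a0 : A 0 = 1 := by decide
        have a1 : A 1 = 5 := by decide
        have a2 : A 2 = 12 := by decide
        have a3 : A 3 = 22 := by decide
        rw [b0, b1, b2, b3, b4, a0, a1, a2, a3]
        push_cast
        have m1 := (ih (N - 2) (by omega)).2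
        have m2 := (ih (N - 7) (by omega)).2
        have m3 := mono (N - 12) (N - 7 - 1) (by omega) (by omega)
        have m4 := mono (N - 15) (N - 7 - 3) (by omega) (by omega)
        have m5 := mono (N - 26) (N - 22) (by omega) (by omega)
        rw [show (N : ℤ) - 2 - 1 = N - 3 by ring, show (N : ℤ) - 2 - 3 = N - 5 by ring] at m1
        rw [sub_zero]
        linarith
      | succ J ihJ =>
        obtain ⟨s0, s1, s2, s3⟩ := s_vals (J + 1)
        rw [show 4 * (J + 1) = 4 * J + 4 by ring] at *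
        rw [Finset.sum_range_succ, Finset.sum_range_succ, Finset.sum_range_succ,
          Finset.sum_range_succ, s0, s1, s2, s3]
        set k := 4 * J + 4
        have e0 := AB k
        have e1 := BA k
        have e2 := AB (k + 1)
        have e3 := BA (k + 1)
        have e4 := AB (k + 2)
        have e5 := BA (k + 2)
        have e6 := AB (k + 3)
        have e7 := BA (k + 3)
        rw [show k + 1 + 1 = k + 2 by ring] at e3
        rw [show k + 2 + 1 = k + 3 by ring] at e5
        rw [show k + 3 + 1 = k + 4 by ring] at e7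
        have m1 := mono (N - A (k + 1)) (N - A k) (by omega) (by omega)
        have m2 := mono (N - A (k + 2)) (N - B (k + 1)) (by omega) (by omega)
        have m3 := mono (N - B (k + 3)) (N - B (k + 2)) (by omega) (by omega)
        have m4 := mono (N - B (k + 4)) (N - A (k + 3)) (by omega) (by omega)
        linarith
    have h0 := conv Psi s coeff_Psi N (4 * N + 4) (by omega)
    rw [Psi_mul, coeff_one, if_neg (by omega)] at h0
    have h1 := key N
    have h2 := B_ge (4 * N + 4)
    rw [← h0, f_neg _ (by omega)] at h1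
    have h3 := (ih (N - 1) (by omega)).1
    have h4 := (ih (N - 3) (by omega)).1
    constructor <;> linarith

lemma grow (x : ℤ) : 0 ≤ f x ∧ f (x - 1) + f (x - 3) ≤ f x :=
  growth (x.toNat + 1) x (by omega)

lemma mono (x y : ℤ) (h : x ≤ y) : f x ≤ f y :=
  mono_of (y + 1) (fun x _ => grow x) x y h (by omega)

lemma first (x : ℤ) (hx : 0 ≤ x) : f (x - 5) + f (x - 8) < f x := by
  have h0 := f_zero
  by_cases h : x < 5
  · rw [f_neg (x - 5) (by omega), f_neg (x - 8) (by omega)]
    have := mono 0 x hx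
    linarith
  · have m1 := (grow x).2
    have m2 := (grow (x - 1)).2
    have m3 := mono 0 (x - 1 - 1) (by omega)
    have m4 := mono (x - 5) (x - 3) (by omega)
    have m5 := mono (x - 8) (x - 1 - 3) (by omega)
    linarith

theorem result : Psi * PsiInv = 1 ∧ ∀ n : ℕ, 7 ≤ n → 0 < coeff n (qPoch * PsiInv) := by
  refine ⟨Psi_mul, fun N hN => ?_⟩
  have key : ∀ J : ℕ, ∑ k ∈ Finset.range (4 * J + 4),
      s k * (f ((N : ℤ) - B k) - f ((N : ℤ) - A k)) < ∑ k ∈ Finset.range (4 * J + 4),
      (-1) ^ k * (f ((N : ℤ) - B k) - f ((N : ℤ) - A k)) := by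
    intro J
    induction J with
    | zero =>
      obtain ⟨s0, s1, s2, s3⟩ := s_vals 0
      simp only [Finset.sum_range_succ, Finset.sum_range_zero, mul_zero, zero_add] at *
      rw [s0, s1, s2, s3]
      have b2 : B 2 = 7 := by decide
      have b3 : B 3 = 15 := by decide
      have a2 : A 2 = 12 := by decide
      have a3 : A 3 = 22 := by decide
      rw [b2, b3, a2, a3]
      push_cast
      have m1 := first (N - 7) (by omega)
      have m2 := (grow (N - 22)).1
      rw [show (N : ℤ) - 7 - 5 = N - 12 by ring, show (N : ℤ) - 7 - 8 = N - 15 by ring] at m1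
      linarith
    | succ J ihJ =>
      obtain ⟨s0, s1, s2, s3⟩ := s_vals (J + 1)
      have h : (-1 : ℤ) ^ (4 * (J + 1)) = 1 := by rw [pow_mul]; simp
      rw [show 4 * (J + 1) = 4 * J + 4 by ring] at *
      have four : ∀ (g : ℕ → ℤ) (k : ℕ), ∑ i ∈ Finset.range (k + 4), g i =
          ∑ i ∈ Finset.range k, g i + g k + g (k + 1) + g (k + 2) + g (k + 3) := by
        intro g k
        simp only [Finset.sum_range_succ]
      rw [four _ (4 * J + 4), four _ (4 * J + 4), s0, s1, s2, s3]
      set k := 4 * J + 4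
      rw [pow_succ _ (k + 2), pow_succ _ (k + 1), pow_succ _ k, h]
      have e4 := AB (k + 2)
      have e5 := BA (k + 2)
      rw [show k + 2 + 1 = k + 3 by ring] at e5
      have m1 := (grow (N - B (k + 2))).2
      have m2 := mono (N - A (k + 2)) (N - B (k + 2) - 1) (by omega)
      have m3 := mono (N - B (k + 3)) (N - B (k + 2) - 3) (by omega)
      have m4 := (grow (N - A (k + 3))).1
      linarith
  have h0 := conv Psi s coeff_Psi N (4 * N + 4) (by omega)
  rw [Psi_mul, coeff_one, if_neg (by omega)] at h0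
  rw [conv qPoch (fun k => (-1) ^ k) coeff_qPoch N (4 * N + 4) (by omega), h0]
  exact key N

end Pool.Agent.Results.MP_d4d41d_nt.Positive
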